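import Pool.Agent.H.MP_62c2ba_co.MainQ

/-!
# Matchings in 3-graphs whose links have large spectral radius

Let `H` be a 3-graph with the vertices `0, ..., n - 1`, and `n ≥ 3 s + min(s, 50 s^(4/5)) + 30`.  If for every
vertex `v` the adjacency matrix of the link graph of `v` has an eigenvalue greater than
`f(n, s) = (s - 1 + √((s - 1)² + 4 s (n - s - 1))) / 2`, then `H` has `s + 1` pairwise disjoint edges.
-/

set_option autoImplicit false

namespace Pool.Agent.Results.MP_62c2ba_co.AlmostPerfectRange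

open Pool.MP_62c2ba

theorem result (n s : ℕ)
    (hn : 3 * (s : ℝ) + min (s : ℝ) (50 * (s : ℝ) ^ ((4 : ℝ) / 5)) + 30 ≤ (n : ℝ))
    (H : Finset (Finset (Fin n))) (hH : ∀ e ∈ H, e.card = 3)
    (hρ : ∀ v : Fin n, ∃ μ ∈ spectrum ℝ ((link H v).adjMatrix ℝ),
      ((s : ℝ) - 1 + Real.sqrt (((s : ℝ) - 1) ^ 2 + 4 * s * ((n : ℝ) - s - 1))) / 2 < μ) :
    ∃ M ⊆ H, M.card = s + 1 ∧ ∀ e ∈ M, ∀ f ∈ M, e ≠ f → Disjoint e f := by
  refine mainQ s H hH (by rw [Fintype.card_fin]; exact hn) fun v => ?_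
  rw [Fintype.card_fin]
  exact hρ v

end Pool.Agent.Results.MP_62c2ba_co.AlmostPerfectRange
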