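import Pool.Agent.H.MP_62c2ba_co.HPq

/-!
# Matchings in 3-graphs whose edges contain pairs of large codegree

Let `H` be a 3-graph with the vertices `0, ..., n - 1`, `n ≥ 3 s + 3`, `c = 0` or `c = 1`, and `W` a set of at
least `3 s + 3 - 2 c` vertices `v` such that the adjacency matrix of the link graph of `v` has an
eigenvalue greater than `f(n, s) = (s - 1 + √((s - 1)² + 4 s (n - s - 1))) / 2`.  If every edge that meets
`W` contains a pair which is in at least `3 s + c` edges, then `H` has `s + 1` pairwise disjoint edges.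
-/

set_option autoImplicit false

namespace Pool.Agent.Results.MP_62c2ba_co.HeavyPairs

open Pool.MP_62c2ba

theorem result (n s c : ℕ) (hc : c ≤ 1) (hn : 3 * s + 3 ≤ n)
    (H : Finset (Finset (Fin n))) (hH : ∀ e ∈ H, e.card = 3)
    (W : Finset (Fin n)) (hW : 3 * s + 3 ≤ W.card + 2 * c)
    (hρ : ∀ v ∈ W, ∃ μ ∈ spectrum ℝ ((link H v).adjMatrix ℝ),
      ((s : ℝ) - 1 + Real.sqrt (((s : ℝ) - 1) ^ 2 + 4 * s * ((n : ℝ) - s - 1))) / 2 < μ)
    (hp : ∀ e ∈ H, (∃ v ∈ W, v ∈ e) → ∃ a ∈ e, ∃ b ∈ e, a ≠ b ∧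
      3 * s + c ≤ (H.filter (fun f => a ∈ f ∧ b ∈ f)).card) :
    ∃ M ⊆ H, M.card = s + 1 ∧ ∀ e ∈ M, ∀ f ∈ M, e ≠ f → Disjoint e f := by
  refine hq_main s c hc (by rw [Fintype.card_fin]; exact hn) H hH W hW (fun v hv => ?_) hp
  obtain ⟨μ, h1, h2⟩ := hρ v hv
  refine ⟨μ, h1, ?_⟩
  unfold thr
  rw [Fintype.card_fin]
  exact h2

end Pool.Agent.Results.MP_62c2ba_co.HeavyPairs
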